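import Pool.Agent.N65.GP.Defs

set_option autoImplicit false

/-!
# GP/B (helper143): the branches in both directions
-/

namespace Pool.Agent.N143.GP

open Complex Polynomial Filter Topology Bornology
open Pool.Agent.N65.GP

/-- the coefficients of the exchanged polynomial -/
noncomputable def ex {n : ℕ} (α : Fin n → ℂ) (a : ℕ → ℕ → ℂ) (i j : ℕ) : ℂ :=
  a j i / ∏ i, (-α i)

theorem Fp_ex {n : ℕ} (α : Fin n → ℂ) (hα : ∀ i, α i ≠ 0) (a : ℕ → ℕ → ℂ) (x y : ℂ) :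
    Fp n α a x y = (∏ i, (-α i)) * Fp n (fun i => (α i)⁻¹) (ex α a) y x := by
  have hP : (∏ i, (-α i)) ≠ 0 := Finset.prod_ne_zero_iff.2 fun i _ => neg_ne_zero.2 (hα i)
  unfold Fp
  rw [mul_add]
  congr 1
  · rw [← Finset.prod_mul_distrib]
    refine Finset.prod_congr rfl fun i _ => ?_
    have := hα i
    field_simp
    ring
  · have h1 : ∑ i ∈ Finset.range n, ∑ j ∈ Finset.range (n - i), a i j * x ^ i * y ^ j =
        ∑ j ∈ Finset.range n, ∑ i ∈ Finset.range (n - j), a i j * x ^ i * y ^ j := by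
      refine Finset.sum_comm' ?_
      intro i j
      simp only [Finset.mem_range]
      omega
    rw [h1, Finset.mul_sum]
    refine Finset.sum_congr rfl fun j _ => ?_
    rw [Finset.mul_sum]
    refine Finset.sum_congr rfl fun i _ => ?_
    unfold ex
    field_simp

theorem ev_bd {P : ℂ → Prop} (h : ∀ᶠ c in cobounded ℂ, P c) : ∃ R : ℝ, ∀ c, R < ‖c‖ → P c := by
  obtain ⟨R, -, hR⟩ := (hasBasis_cobounded_norm (E := ℂ)).eventually_iff.1 h
  exact ⟨R, fun c hc => hR (show R ≤ ‖c‖ from hc.le)⟩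

theorem grow {α : ℂ} (hα : α ≠ 0) {Y : ℂ → ℂ} (h : Tendsto (fun c => Y c / c) (cobounded ℂ) (𝓝 α))
    (R' : ℝ) : ∀ᶠ c in cobounded ℂ, R' < ‖Y c‖ := by
  have h1 : Tendsto (fun c : ℂ => ‖Y c / c‖ * ‖c‖) (cobounded ℂ) atTop :=
    Filter.Tendsto.pos_mul_atTop (norm_pos_iff.2 hα) h.norm tendsto_norm_cobounded_atTop
  have h2 : ∀ᶠ c : ℂ in cobounded ℂ, c ≠ 0 := eventually_ne_cobounded 0
  filter_upwards [h1.eventually_gt_atTop R', h2] with c hc hc0
  rwa [norm_div, div_mul_cancel₀ _ (norm_ne_zero_iff.2 hc0)] at hc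

theorem open_set (R : ℝ) : IsOpen {c : ℂ | R < ‖c‖} := isOpen_lt continuous_const continuous_norm

/-- the derivative of a function with a left inverse does not vanish -/
theorem deriv_ne {Y Z : ℂ → ℂ} {R' R : ℝ} (hY : DifferentiableOn ℂ Y {c | R' < ‖c‖})
    (hZ : DifferentiableOn ℂ Z {c | R' < ‖c‖}) (hRR : R' ≤ R)
    (hbig : ∀ c, R < ‖c‖ → R' < ‖Y c‖) (hinv : ∀ c, R' < ‖c‖ → R' < ‖Y c‖ → Z (Y c) = c)
    (c : ℂ) (hc : R < ‖c‖) : deriv Y c ≠ 0 := by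
  have hc' : R' < ‖c‖ := lt_of_le_of_lt hRR hc
  have hYc : HasDerivAt Y (deriv Y c) c :=
    ((hY c hc').differentiableAt ((open_set R').mem_nhds hc')).hasDerivAt
  have hZc : HasDerivAt Z (deriv Z (Y c)) (Y c) :=
    ((hZ (Y c) (hbig c hc)).differentiableAt ((open_set R').mem_nhds (hbig c hc))).hasDerivAt
  have h1 : HasDerivAt (fun t => Z (Y t)) (deriv Z (Y c) * deriv Y c) c := hZc.comp c hYc
  have h2 : (fun t => Z (Y t)) =ᶠ[𝓝 c] fun t => t := by
    filter_upwards [(open_set R).mem_nhds hc] with t ht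
    exact hinv t (lt_of_le_of_lt hRR ht) (hbig t ht)
  have h3 : HasDerivAt (fun t : ℂ => t) (deriv Z (Y c) * deriv Y c) c := h1.congr_of_eventuallyEq h2.symm
  have h4 := h3.unique (hasDerivAt_id' c)
  intro h0
  rw [h0, mul_zero] at h4
  exact zero_ne_one h4

theorem t_B (h : S_B1) : S_B := by
  intro k C
  have hP : (∏ i, (-C.α i)) ≠ 0 := Finset.prod_ne_zero_iff.2 fun i _ => neg_ne_zero.2 (C.ne i)
  have hF : ∀ x y, C.F x y = (∏ i, (-C.α i)) * Fp C.n (fun i => (C.α i)⁻¹) (ex C.α C.a) y x :=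
    fun x y => Fp_ex C.α C.ne C.a x y
  obtain ⟨R1, Y, hR1, rootY, injY, diffY, FyY, limY⟩ := h C.n C.α C.a C.inj
  obtain ⟨R2, Z, hR2, rootZ, injZ, diffZ, FyZ, limZ⟩ := h C.n (fun i => (C.α i)⁻¹) (ex C.α C.a)
    (fun i j hij => C.inj (inv_injective hij))
  -- separation
  obtain ⟨e, he, hsep⟩ : ∃ e : ℝ, 0 < e ∧ ∀ i j, i ≠ j → 2 * e < ‖(C.α i)⁻¹ - (C.α j)⁻¹‖ := by
    have h1 : ∀ᶠ e in 𝓝[>] (0 : ℝ), ∀ i j, i ≠ j → 2 * e < ‖(C.α i)⁻¹ - (C.α j)⁻¹‖ := by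
      refine eventually_all.2 fun i => eventually_all.2 fun j => ?_
      by_cases hij : i = j
      · exact Eventually.of_forall fun e h => absurd hij h
      · have hpos : 0 < ‖(C.α i)⁻¹ - (C.α j)⁻¹‖ := by
          rw [norm_pos_iff, sub_ne_zero]
          exact fun h => hij (C.inj (inv_injective h))
        have h2 : Tendsto (fun e : ℝ => 2 * e) (𝓝[>] 0) (𝓝 (2 * 0)) :=
          (tendsto_const_nhds.mul tendsto_id).mono_left nhdsWithin_le_nhds
        rw [mul_zero] at h2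
        exact (h2.eventually (gt_mem_nhds hpos)).mono fun e he _ => he
    obtain ⟨e, h2, h3⟩ := (h1.and self_mem_nhdsWithin).exists
    exact ⟨e, h3, h2⟩
  have E1 : ∀ᶠ c in cobounded ℂ, ∀ i, ‖(Y i c / c)⁻¹ - (C.α i)⁻¹‖ < e := by
    refine eventually_all.2 fun i => ?_
    have h1 : Tendsto (fun c => (Y i c / c)⁻¹ - (C.α i)⁻¹) (cobounded ℂ)
        (𝓝 ((C.α i)⁻¹ - (C.α i)⁻¹)) := ((limY i).inv₀ (C.ne i)).sub tendsto_const_nhds
    rw [sub_self] at h1
    have h2 := h1.norm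
    rw [norm_zero] at h2
    exact h2.eventually (gt_mem_nhds he)
  have E2 : ∀ᶠ m in cobounded ℂ, ∀ i, ‖Z i m / m - (C.α i)⁻¹‖ < e := by
    refine eventually_all.2 fun i => ?_
    have h1 : Tendsto (fun m => Z i m / m - (C.α i)⁻¹) (cobounded ℂ)
        (𝓝 ((C.α i)⁻¹ - (C.α i)⁻¹)) := (limZ i).sub tendsto_const_nhds
    rw [sub_self] at h1
    have h2 := h1.norm
    rw [norm_zero] at h2
    exact h2.eventually (gt_mem_nhds he)
  obtain ⟨R3, hR3⟩ := ev_bd (E1.and E2)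
  obtain ⟨R', hR'⟩ : ∃ R' : ℝ, R' = max (max R1 R2) R3 := ⟨_, rfl⟩
  have l1 : R1 ≤ R' := by rw [hR']; exact (le_max_left _ _).trans (le_max_left _ _)
  have l2 : R2 ≤ R' := by rw [hR']; exact (le_max_right _ _).trans (le_max_left _ _)
  have l3 : R3 ≤ R' := by rw [hR']; exact le_max_right _ _
  have close : ∀ i j : Fin C.n, ∀ z : ℂ, ‖z - (C.α i)⁻¹‖ < e → ‖z - (C.α j)⁻¹‖ < e → i = j := by
    intro i j z h1 h2
    by_contra hij
    have h3 := hsep i j hij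
    have h4 : (C.α i)⁻¹ - (C.α j)⁻¹ = (z - (C.α j)⁻¹) - (z - (C.α i)⁻¹) := by ring
    have h5 := norm_sub_le (z - (C.α j)⁻¹) (z - (C.α i)⁻¹)
    rw [← h4] at h5
    linarith
  have keyX : ∀ i c, R' < ‖c‖ → R' < ‖Y i c‖ → Z i (Y i c) = c := by
    intro i c hc hYc
    have h0 : Fp C.n C.α C.a c (Y i c) = 0 := (rootY c (lt_of_le_of_lt l1 hc) _).2 ⟨i, rfl⟩
    rw [Fp_ex C.α C.ne, mul_eq_zero, or_iff_right hP] at h0
    obtain ⟨j, hj⟩ := (rootZ (Y i c) (lt_of_le_of_lt l2 hYc) c).1 h0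
    have e1 := (hR3 c (lt_of_le_of_lt l3 hc)).1 i
    have e2 := (hR3 (Y i c) (lt_of_le_of_lt l3 hYc)).2 j
    rw [← hj] at e2
    rw [inv_div] at e1
    have hij := close i j _ e1 e2
    subst hij
    exact hj.symm
  have keyY : ∀ i m, R' < ‖m‖ → R' < ‖Z i m‖ → Y i (Z i m) = m := by
    intro i m hm hZm
    have h0 : Fp C.n (fun i => (C.α i)⁻¹) (ex C.α C.a) m (Z i m) = 0 :=
      (rootZ m (lt_of_le_of_lt l2 hm) _).2 ⟨i, rfl⟩
    have h1 : Fp C.n C.α C.a (Z i m) m = 0 := by rw [Fp_ex C.α C.ne, h0, mul_zero]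
    obtain ⟨j, hj⟩ := (rootY (Z i m) (lt_of_le_of_lt l1 hZm) m).1 h1
    have e1 := (hR3 (Z i m) (lt_of_le_of_lt l3 hZm)).1 j
    have e2 := (hR3 m (lt_of_le_of_lt l3 hm)).2 i
    rw [← hj, inv_div] at e1
    have hij := close i j _ e2 e1
    subst hij
    exact hj.symm
  have E3 : ∀ᶠ c in cobounded ℂ, ∀ i, R' < ‖Y i c‖ :=
    eventually_all.2 fun i => grow (C.ne i) (limY i) R'
  have E4 : ∀ᶠ c in cobounded ℂ, ∀ i, R' < ‖Z i c‖ :=
    eventually_all.2 fun i => grow (inv_ne_zero (C.ne i)) (limZ i) R'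
  obtain ⟨R4, hR4⟩ := ev_bd (E3.and E4)
  obtain ⟨R, hR⟩ : ∃ R : ℝ, R = max R' R4 := ⟨_, rfl⟩
  have m1 : R' ≤ R := by rw [hR]; exact le_max_left _ _
  have m2 : R4 ≤ R := by rw [hR]; exact le_max_right _ _
  have dY : ∀ i, DifferentiableOn ℂ (Y i) {c | R' < ‖c‖} := fun i =>
    (diffY i).mono fun c (hc : R' < ‖c‖) => lt_of_le_of_lt l1 hc
  have dZ : ∀ i, DifferentiableOn ℂ (Z i) {c | R' < ‖c‖} := fun i =>
    (diffZ i).mono fun c (hc : R' < ‖c‖) => lt_of_le_of_lt l2 hc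
  have n1 : R1 ≤ R := l1.trans m1
  have n2 : R2 ≤ R := l2.trans m1
  refine ⟨R, ⟨?_⟩⟩
  exact
    { yb := Y
      xb := Z
      pos := lt_of_lt_of_le hR1 n1
      rootY := fun c hc y => rootY c (lt_of_le_of_lt n1 hc) y
      rootX := fun m hm x => by
        rw [hF, mul_eq_zero, or_iff_right hP]
        exact rootZ m (lt_of_le_of_lt n2 hm) x
      injY := fun c hc => injY c (lt_of_le_of_lt n1 hc)
      injX := fun m hm => injZ m (lt_of_le_of_lt n2 hm)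
      diffY := fun i => (diffY i).mono fun c (hc : R < ‖c‖) => lt_of_le_of_lt n1 hc
      diffX := fun i => (diffZ i).mono fun c (hc : R < ‖c‖) => lt_of_le_of_lt n2 hc
      derivY := fun i c hc => deriv_ne (dY i) (dZ i) m1
        (fun c hc => (hR4 c (lt_of_le_of_lt m2 hc)).1 i) (keyX i) c hc
      derivX := fun i m hm => deriv_ne (dZ i) (dY i) m1
        (fun c hc => (hR4 c (lt_of_le_of_lt m2 hc)).2 i) (keyY i) m hm
      Fy_ne := fun i c hc => FyY i c (lt_of_le_of_lt n1 hc)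
      Fx_ne := fun i m hm => by
        have h1 : (fun t => C.F t m) = fun t => (∏ i, (-C.α i)) *
            Fp C.n (fun i => (C.α i)⁻¹) (ex C.α C.a) m t := by
          funext t
          exact hF t m
        show deriv (fun t => C.F t m) (Z i m) ≠ 0
        rw [h1, deriv_const_mul_field]
        exact mul_ne_zero hP (FyZ i m (lt_of_le_of_lt n2 hm))
      limY := limY
      limX := limZ
      invX := fun i c hc hy => keyX i c (lt_of_le_of_lt m1 hc) (lt_of_le_of_lt m1 hy)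
      invY := fun i m hm hx => keyY i m (lt_of_le_of_lt m1 hm) (lt_of_le_of_lt m1 hx) }

end Pool.Agent.N143.GP
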